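import Pool.Agent.Helper92.TN.GoalsH
import Pool.Agent.Helper91.T3.TORS
import Pool.Agent.Helper30.SGB.EDUP

/-! Project TN, packet ACLP: points with coordinates in `acl K S`. -/

set_option autoImplicit false

namespace Pool.Agent.Helper61.TN.ACLP

open WeierstrassCurve
open Pool.Agent.Helper29.BL Pool.Agent.Helper42.SG
open Pool.Agent.Helper60.T3 Pool.Agent.Helper92.TN

theorem t (hA : Pool.Agent.Helper92.TN.ACLA) (hS : S_SUBF) (hNZ : NZ1) (hED : EDUP) :
    Pool.Agent.Helper92.TN.ACLP := by
  intro K Ω _ _ _ _ _ _ W _ S P Q e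
  obtain ⟨-, -, -, -, -, hcl, htr⟩ := hA K Ω S ∅
  haveI : IsAlgClosed (acl K S) := hcl inferInstance
  haveI : CharZero Ω := charZero_of_injective_algebraMap (algebraMap K Ω).injective
  haveI : CharZero (acl K S) := charZero_of_injective_algebraMap (algebraMap K (acl K S)).injective
  have hr : Set.range (algebraMap (acl K S) Ω) = (acl K S : Set Ω) := Subtype.range_coe
  have hU : WL Ω W = WeierstrassCurve.map (WeierstrassCurve.map W (algebraMap K (acl K S)))
      (algebraMap (acl K S) Ω) := by
    rw [WeierstrassCurve.map_map, ← IsScalarTower.algebraMap_eq]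
  have h1 : ∀ R : (WL Ω W).Point, xc R ∈ acl K S → IP (acl K S : Set Ω) R := by
    intro R hR
    rcases R with _ | ⟨x, y, h⟩
    · exact Or.inl rfl
    · right
      refine ⟨hR, ?_⟩
      have hx : x ∈ acl K S := hR
      have hsq := Pool.Agent.Helper30.SGB.ps_sq (WL Ω W) x y h
      have hm : (2 * y + (WL Ω W).a₁ * x + (WL Ω W).a₃) ^ 2 ∈
          Set.range (algebraMap (acl K S) Ω) := by
        rw [hr, hsq]
        show Bf (WL Ω W) x ∈ acl K S
        unfold Bf
        simp only [WeierstrassCurve.map_b₂, WeierstrassCurve.map_b₄, WeierstrassCurve.map_b₆]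
        have hk : ∀ c : K, algebraMap K Ω c ∈ acl K S := fun c => (acl K S).algebraMap_mem c
        have h4 : (4 : Ω) ∈ acl K S := by exact_mod_cast (acl K S).natCast_mem 4
        have h2 : (2 : Ω) ∈ acl K S := by exact_mod_cast (acl K S).natCast_mem 2
        exact add_mem (add_mem (add_mem (mul_mem h4 (pow_mem hx 3))
          (mul_mem (hk _) (pow_mem hx 2))) (mul_mem (mul_mem h2 (hk _)) hx)) (hk _)
      have := Pool.Agent.Helper91.T3.TORS.mem_of_sq hm
      rw [hr] at this
      exact this
  refine ⟨h1 P, ?_, ?_⟩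
  · intro h
    by_cases hP : P = 0
    · exact Or.inl hP
    · apply h1
      rcases htr inferInstance (xc P) with h3 | h3
      · exact h3
      · exact absurd (by rw [hr]; exact h)
          (Pool.Agent.Helper91.T3.TORS.not_IP hNZ hED
            (WeierstrassCurve.map W (algebraMap K (acl K S))) (WL Ω W) hU P hP h3 e)
  · intro hP hQ
    obtain ⟨a, b, -, -⟩ := hS K Ω W (acl K S) P Q hP hQ
    obtain ⟨-, -, -, c⟩ := hS K Ω W (acl K S) P P hP hP
    exact ⟨a, b, c _⟩

end Pool.Agent.Helper61.TN.ACLP
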